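import Mathlib
import Pool.Agent.Zk44.SC.Shift
import Pool.Agent.Zk44.GE.Der
import Pool.Agent.TH813.Ros

/-!
# A derivation with `Δ (exp γ) = γ exp γ`, algebraic constants, and without exact logarithmic sums

`Δ r = ∑ c_j Δ y_j / y_j` with constants `c_j` implies `Δ r = 0`.
-/

set_option autoImplicit false

namespace Pool.Agent.Zk44.UP

open Pool.Agent.H351R3.Gel Pool.Agent.R351 Complex
open Pool.Agent.Zk44.GE (algebraic_of_rel countable_QB not_alg_countable)
open Pool.Agent.Zk44.SC (form form_symm)
open scoped Polynomial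

/-- **The derivation**, with its closed logarithmic forms. -/
theorem exists_der_form : ∃ D : Derivation QB ℂ ℂ, (∀ γ : QB, D (cexp γ) = (γ : ℂ) * cexp γ) ∧
    (∀ z, D z = 0 → ∃ a : QB, algebraMap QB ℂ a = z) ∧
    ∀ (n : ℕ) (x : ℂ) (c : Fin n → QB) (u : Fin n → ℂ), form x c u D = 0 →
      ∃ (κ : Type) (s : Finset κ) (g : κ → QB) (v : κ → ℂ), (∀ k ∈ s, v k ≠ 0) ∧
        ∀ F : Derivation QB ℂ ℂ, form x c u F = ∑ k ∈ s, (g k : ℂ) * (F (v k) / v k) := by
  classical
  have hac : IsAlgClosure ℚ QB := algebraicClosure.isAlgClosure ℚ ℂ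
  have hacl : IsAlgClosed QB := IsAlgClosure.isAlgClosed ℚ
  have hcQ : Countable QB := countable_QB
  -- a rational basis of the algebraic numbers
  let b := Module.Basis.ofVectorSpace ℚ QB
  set ι := Module.Basis.ofVectorSpaceIndex ℚ QB with hι
  have hbi : LinearIndependent ℚ b := b.linearIndependent
  let e : ι → ℂ := fun i => cexp (b i : ℂ)
  have he : AlgebraicIndependent QB e := by
    apply algebraicIndependent_of_finite_type
    intro t ht
    have : Fintype t := ht.fintype
    have h1 : LinearIndependent ℚ (fun i : t => ((b i : QB) : ℂ)) := by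
      have h2 : LinearIndependent ℚ (fun i : t => b i) := hbi.comp _ Subtype.val_injective
      exact h2.map' (QB.val.toLinearMap) (LinearMap.ker_eq_bot.2 Subtype.val_injective)
    exact Pool.Agent.H297R2.exp_algebraicIndependent _ (fun i => mem_QB.1 (b i).2) h1
  have heinj : Function.Injective e := he.injective
  have hE : AlgebraicIndepOn QB id (Set.range e) := (AlgebraicIndependent.coe_range he)
  obtain ⟨B, hEB, hB⟩ := exists_isTranscendenceBasis_superset hE
  -- the further elements
  let B' := {x : B // (x : ℂ) ∉ Set.range e}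
  have hB'inf : Infinite B' := by
    by_contra hfin
    rw [not_infinite_iff_finite] at hfin
    have h1 : B.Countable := by
      have h2 : B ⊆ Set.range e ∪ Set.range (fun x : B' => ((x : B) : ℂ)) := by
        intro x hx
        by_cases h3 : x ∈ Set.range e
        · exact Or.inl h3
        · exact Or.inr ⟨⟨⟨x, hx⟩, h3⟩, rfl⟩
      refine Set.Countable.mono h2 (Set.Countable.union ?_ ?_)
      · exact Set.countable_range e
      · exact Set.countable_range _
    refine not_alg_countable B h1 ?_
    have h4 := hB.isAlgebraic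
    rwa [Subtype.range_coe] at h4
  obtain ⟨φ⟩ : Nonempty (B' ≃ B' × ℕ) := by
    rw [← Cardinal.eq]
    simp
  let sh : B' → B' := fun b => φ.symm ((φ b).1, (φ b).2 + 1)
  have hsh : ∀ b, φ (sh b) = ((φ b).1, (φ b).2 + 1) := fun b => by simp [sh]
  have hshinj : Function.Injective sh := by
    intro a b hab
    have h1 := congrArg φ hab
    rw [hsh, hsh, Prod.mk.injEq] at h1
    apply φ.injective
    exact Prod.ext h1.1 (by omega)
  -- the values
  let f : B → ℂ := fun x => if h : (x : ℂ) ∈ Set.range e then ((b h.choose : QB) : ℂ) * (x : ℂ)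
    else ((sh ⟨x, h⟩ : B) : ℂ)
  have hfe : ∀ i (hi : e i ∈ B), f ⟨e i, hi⟩ = ((b i : QB) : ℂ) * e i := by
    intro i hi
    have hr : e i ∈ Set.range e := ⟨i, rfl⟩
    have h1 : hr.choose = i := heinj hr.choose_spec
    show (if h : e i ∈ Set.range e then ((b h.choose : QB) : ℂ) * (e i : ℂ)
      else ((sh ⟨⟨e i, hi⟩, h⟩ : B) : ℂ)) = _
    rw [dif_pos hr, h1]
  have hfb : ∀ x : B', f x = ((sh x : B) : ℂ) := by
    intro x
    show (if h : ((x : B) : ℂ) ∈ Set.range e then ((b h.choose : QB) : ℂ) * ((x : B) : ℂ)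
      else ((sh ⟨x, h⟩ : B) : ℂ)) = _
    rw [dif_neg x.2]
  obtain ⟨D, hD⟩ := exists_der_values (fun x : B => (x : ℂ)) hB.1 f
  choose P hP using fun x : B => exists_der_values (fun x : B => (x : ℂ)) hB.1
    (fun x' => if x' = x then (1 : ℂ) else 0)
  have hcomm : ∀ x x' : B, ∀ z, P x (P x' z) = P x' (P x z) := by
    intro x x' z
    have h1 : ⁅P x, P x'⁆ = (0 : Derivation QB ℂ ℂ) := by
      apply der_ext hB
      intro i
      rw [Derivation.commutator_apply, hP, hP, Derivation.zero_apply]
      split_ifs <;> simp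
    have h2 := DFunLike.congr_fun h1 z
    rw [Derivation.commutator_apply, Derivation.zero_apply, sub_eq_zero] at h2
    exact h2
  -- the exponentials
  have hDe : ∀ i, D (e i) = ((b i : QB) : ℂ) * e i := by
    intro i
    have h1 := hD ⟨e i, hEB ⟨i, rfl⟩⟩
    rw [hfe] at h1
    exact h1
  have hDexp : ∀ γ : QB, D (cexp γ) = (γ : ℂ) * cexp γ := by
    let ψ : QB →+ ℂ :=
      { toFun := fun γ => cexp (-(γ : ℂ)) * D (cexp γ)
        map_zero' := by
          show cexp (-((0 : QB) : ℂ)) * D (cexp ((0 : QB) : ℂ)) = 0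
          simp
        map_add' := by
          intro γ δ
          show cexp (-((γ + δ : QB) : ℂ)) * D (cexp ((γ + δ : QB) : ℂ)) =
            cexp (-(γ : ℂ)) * D (cexp γ) + cexp (-(δ : ℂ)) * D (cexp δ)
          have h1 : ((γ + δ : QB) : ℂ) = (γ : ℂ) + δ := rfl
          rw [h1, neg_add, Complex.exp_add, Complex.exp_add, Derivation.leibniz, smul_eq_mul,
            smul_eq_mul]
          have h2 : cexp (-(γ : ℂ)) * cexp γ = 1 := by rw [← Complex.exp_add]; simp
          have h3 : cexp (-(δ : ℂ)) * cexp δ = 1 := by rw [← Complex.exp_add]; simp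
          linear_combination (cexp (-(δ : ℂ)) * D (cexp δ)) * h2 +
            (cexp (-(γ : ℂ)) * D (cexp γ)) * h3 }
    have h1 : ψ.toRatLinearMap = QB.val.toLinearMap := by
      apply b.ext
      intro i
      show cexp (-((b i : QB) : ℂ)) * D (cexp ((b i : QB) : ℂ)) = ((b i : QB) : ℂ)
      have h2 : cexp (-((b i : QB) : ℂ)) * cexp ((b i : QB) : ℂ) = 1 := by
        rw [← Complex.exp_add]; simp
      have h3 : D (cexp ((b i : QB) : ℂ)) = ((b i : QB) : ℂ) * cexp ((b i : QB) : ℂ) := hDe i
      rw [h3]
      linear_combination ((b i : QB) : ℂ) * h2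
    intro γ
    have h4 : cexp (-(γ : ℂ)) * D (cexp γ) = (γ : ℂ) := LinearMap.congr_fun h1 γ
    have h5 : cexp (γ : ℂ) * cexp (-(γ : ℂ)) = 1 := by rw [← Complex.exp_add]; simp
    linear_combination cexp (γ : ℂ) * h4 - D (cexp γ) * h5
  -- the values of the partial derivations at the values of `D`
  have hPf : ∀ (x : B') (y : B), P (sh x) (D (y : ℂ)) = if y = x then 1 else 0 := by
    intro x y
    rw [hD]
    by_cases hy : (y : ℂ) ∈ Set.range e
    · obtain ⟨i, hi⟩ := hy
      have h1 : y = ⟨e i, hEB ⟨i, rfl⟩⟩ := Subtype.ext hi.symm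
      have h2 : y ≠ (x : B) := by
        intro h
        apply x.2
        rw [← h]
        exact ⟨i, hi⟩
      rw [if_neg h2, h1, hfe, Derivation.leibniz]
      have h3 : P (sh x) ((b i : QB) : ℂ) = 0 := (P (sh x)).map_algebraMap (b i)
      have h4 : P (sh x) (e i) = 0 := by
        have h5 := hP (sh x : B) ⟨e i, hEB ⟨i, rfl⟩⟩
        rw [if_neg] at h5
        · exact h5
        · intro h
          exact (sh x).2 (by rw [← h]; exact ⟨i, rfl⟩)
      rw [h3, h4, smul_zero, smul_zero, add_zero]
    · have h1 : f y = ((sh ⟨y, hy⟩ : B) : ℂ) := hfb ⟨y, hy⟩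
      rw [h1, hP]
      by_cases h2 : y = (x : B)
      · rw [if_pos h2, if_pos]
        congr 1
        congr 1
        exact Subtype.ext h2
      · rw [if_neg h2, if_neg]
        intro h3
        apply h2
        have h4 := hshinj (Subtype.ext h3)
        rw [← h4]
  have hconst : ∀ z, D z = 0 → ∃ a : QB, algebraMap QB ℂ a = z := by
    intro z hz
    obtain ⟨S, hS⟩ := exists_finset_algebraic hB z
    have hcomb : ∀ F : Derivation QB ℂ ℂ, F z = ∑ x ∈ S, F (x : ℂ) * P x z := by
      intro F
      have h1 : (F - ∑ x ∈ S, (F (x : ℂ)) • P x) z = 0 := by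
        apply der_zero_of_algebraic (fun i : S => ((i : B) : ℂ)) _ _ z hS
        rintro ⟨x, hx⟩
        rw [Derivation.sub_apply, sub_eq_zero]
        have h2 : (∑ x' ∈ S, (F (x' : ℂ)) • P x') (x : ℂ) = ∑ x' ∈ S, F (x' : ℂ) * P x' (x : ℂ) := by
          rw [sum_der_apply]
          rfl
        rw [h2, Finset.sum_eq_single x]
        · rw [hP, if_pos rfl, mul_one]
        · intro x' _ hne
          rw [hP, if_neg (Ne.symm hne), mul_zero]
        · intro h3; exact absurd hx h3
      rw [Derivation.sub_apply, sub_eq_zero] at h1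
      rw [h1, sum_der_apply]
      rfl
    have hvan : ∀ x ∉ S, P x z = 0 := by
      intro x hx
      rw [hcomb]
      apply Finset.sum_eq_zero
      intro x' hx'
      rw [hP, if_neg (by rintro rfl; exact hx hx'), zero_mul]
    -- the derivations which belong to `B'` vanish
    have hall : ∀ x : B', P x z = 0 := by
      by_contra hcon
      push Not at hcon
      obtain ⟨b₀, hb₀⟩ := hcon
      have hfinB : (Set.univ : Set {x : B' // (x : B) ∈ S}).Finite := by
        have : Finite {x : B' // (x : B) ∈ S} := by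
          refine Finite.of_injective (fun x : {x : B' // (x : B) ∈ S} => (⟨(x : B'), x.2⟩ : S)) ?_
          intro x y hxy
          have := congrArg (fun z : S => (z : B)) hxy
          exact Subtype.ext (Subtype.ext this)
        exact Set.finite_univ
      have hfin : {x : B' | P x z ≠ 0}.Finite := by
        refine Set.Finite.subset (Set.Finite.image (fun x : {x : B' // (x : B) ∈ S} => (x : B')) hfinB) ?_
        intro x hx
        have hxS : (x : B) ∈ S := by
          by_contra h; exact hx (hvan _ h)
        exact ⟨⟨x, hxS⟩, Set.mem_univ _, rfl⟩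
      obtain ⟨x, hx, hmax⟩ := Set.exists_max_image _ (fun x : B' => (φ x).2) hfin ⟨b₀, hb₀⟩
      have hσ0 : P (sh x) z = 0 := by
        by_contra h0
        have := hmax (sh x) h0
        rw [hsh] at this
        simp at this
      have h1 : P (sh x) (D z) = P x z := by
        have hterm : ∀ y ∈ S, P (sh x) (D (y : ℂ) * P y z) = (if y = (x : B) then 1 else 0) * P y z := by
          intro y _
          rw [Derivation.leibniz, hcomm, hσ0, map_zero, smul_zero, zero_add, hPf, smul_eq_mul, mul_comm]
        rw [hcomb D, map_sum, Finset.sum_congr rfl hterm]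
        rw [Finset.sum_eq_single (x : B)]
        · rw [if_pos rfl, one_mul]
        · intro y _ hne
          rw [if_neg hne, zero_mul]
        · intro h
          rw [hvan _ h, mul_zero]
      rw [hz, map_zero] at h1
      exact hx h1.symm
    -- `z` is algebraic over finitely many exponentials
    let SE : Finset B := S.filter (fun x => (x : ℂ) ∈ Set.range e)
    choose pre hpre using fun x : {x : B // (x : ℂ) ∈ Set.range e} => x.2
    have hSE : ∀ x : {x : B // x ∈ SE}, ((x.1 : B) : ℂ) ∈ Set.range e := by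
      intro x
      exact (Finset.mem_filter.1 x.2).2
    let T : Finset ι := SE.attach.image (fun x : {x : B // x ∈ SE} => pre ⟨x.1, hSE x⟩)
    let α : Fin T.card → QB := fun k => b (T.equivFin.symm k : ι)
    have hαli : LinearIndependent ℚ α :=
      hbi.comp (fun k => (T.equivFin.symm k : ι))
        (Subtype.val_injective.comp T.equivFin.symm.injective)
    have hzalg : IsAlgebraic (EF α) z := by
      apply algebraic_of_der_zero
      intro F
      have h1 : (F.restrictScalars QB) z = ∑ x ∈ S, (F.restrictScalars QB) (x : ℂ) * P x z := hcomb _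
      rw [Derivation.restrictScalars_apply] at h1
      rw [h1]
      apply Finset.sum_eq_zero
      intro x hxS
      by_cases hx : (x : ℂ) ∈ Set.range e
      · have hxSE : x ∈ SE := Finset.mem_filter.2 ⟨hxS, hx⟩
        have h2 : e (pre ⟨x, hx⟩) = (x : ℂ) := hpre ⟨x, hx⟩
        have h3 : pre ⟨x, hx⟩ ∈ T := Finset.mem_image.2 ⟨⟨x, hxSE⟩, Finset.mem_attach _ _, rfl⟩
        have h4 : (x : ℂ) ∈ EF α := by
          rw [← h2]
          have h5 := exp_mem_EF α (T.equivFin ⟨_, h3⟩)
          have h6 : α (T.equivFin ⟨_, h3⟩) = b (pre ⟨x, hx⟩) := by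
            show b (T.equivFin.symm (T.equivFin ⟨_, h3⟩) : ι) = _
            rw [Equiv.symm_apply_apply]
          rw [h6] at h5
          exact h5
        have h7 : F (x : ℂ) = 0 := F.map_algebraMap (⟨(x : ℂ), h4⟩ : EF α)
        rw [Derivation.restrictScalars_apply, h7, zero_mul]
      · rw [show P x z = 0 from hall ⟨x, hx⟩, mul_zero]
    -- the relation
    obtain ⟨Q, hQ0, hQ⟩ := exists_rel α hzalg
    have hginj := gam_injective α hαli
    have halg : IsAlgebraic QB z := by
      obtain ⟨n, hn⟩ : ∃ n, Q.support.card = n + 1 := by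
        have : 0 < Q.support.card := by
          rw [Finset.card_pos]
          exact MvPolynomial.support_nonempty.2 hQ0
        exact ⟨Q.support.card - 1, by omega⟩
      let inv : QB → (Fin T.card →₀ ℕ) := fun γ =>
        if h : ∃ s ∈ Q.support, gam α s = γ then h.choose else 0
      have hinv : ∀ s ∈ Q.support, inv (gam α s) = s := by
        intro s hs
        have h : ∃ s' ∈ Q.support, gam α s' = gam α s := ⟨s, hs, rfl⟩
        show (if h : ∃ s' ∈ Q.support, gam α s' = gam α s then h.choose else 0) = s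
        rw [dif_pos h]
        exact hginj h.choose_spec.2
      refine algebraic_of_rel D hDexp z hz n (Q.support.image (gam α)) (fun γ => Q.coeff (inv γ)) ?_ ?_ ?_
      · rw [Finset.card_image_of_injective _ hginj, hn]
      · intro γ hγ
        obtain ⟨s, hs, rfl⟩ := Finset.mem_image.1 hγ
        show Q.coeff (inv (gam α s)) ≠ 0
        rw [hinv s hs]
        exact MvPolynomial.mem_support_iff.1 hs
      · rw [Finset.sum_image (fun s _ t _ h => hginj h), ← hQ]
        refine Finset.sum_congr rfl fun s hs => ?_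
        show Polynomial.aeval z (Q.coeff (inv (gam α s))) * _ = _
        rw [hinv s hs]
    -- `ℚ̄` is algebraically closed
    obtain ⟨p, hp0, hp⟩ := halg
    have hs : (p.map (algebraMap QB ℂ)).roots = p.roots.map (algebraMap QB ℂ) :=
      (IsAlgClosed.splits p).roots_map _
    have h1 : z ∈ (p.map (algebraMap QB ℂ)).roots := by
      rw [Polynomial.mem_roots (by rwa [Ne, Polynomial.map_eq_zero]), Polynomial.IsRoot,
        Polynomial.eval_map, ← Polynomial.aeval_def, hp]
    rw [hs, Multiset.mem_map] at h1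
    obtain ⟨a, _, ha⟩ := h1
    exact ⟨a, ha⟩
  refine ⟨D, hDexp, hconst, ?_⟩
  -- one number
  have hcomb : ∀ z : ℂ, ∃ S : Finset B, ∀ F : Derivation QB ℂ ℂ, ∀ T : Finset B, S ⊆ T →
      F z = ∑ x ∈ T, F (x : ℂ) * P x z := by
    intro z
    obtain ⟨S, hS⟩ := exists_finset_algebraic hB z
    refine ⟨S, fun F T hST => ?_⟩
    have hT : IsAlgebraic (Algebra.adjoin QB (Set.range fun i : T => ((i : B) : ℂ))) z := by
      have hle : Algebra.adjoin QB (Set.range fun i : S => ((i : B) : ℂ)) ≤
          Algebra.adjoin QB (Set.range fun i : T => ((i : B) : ℂ)) := by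
        apply Algebra.adjoin_mono
        rintro _ ⟨i, rfl⟩
        exact ⟨⟨i, hST i.2⟩, rfl⟩
      obtain ⟨p, hp0, hp⟩ := hS
      refine ⟨p.map (Subalgebra.inclusion hle).toRingHom, ?_, ?_⟩
      · rwa [Ne, Polynomial.map_eq_zero_iff]
        exact Subalgebra.inclusion_injective hle
      · rw [← hp, Polynomial.aeval_def, Polynomial.eval₂_map, Polynomial.aeval_def]
        rfl
    have h1 : (F - ∑ x ∈ T, (F (x : ℂ)) • P x) z = 0 := by
      apply der_zero_of_algebraic (fun i : T => ((i : B) : ℂ)) _ _ z hT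
      rintro ⟨x, hx⟩
      rw [Derivation.sub_apply, sub_eq_zero]
      have h2 : (∑ x' ∈ T, (F (x' : ℂ)) • P x') (x : ℂ) = ∑ x' ∈ T, F (x' : ℂ) * P x' (x : ℂ) := by
        rw [sum_der_apply]
        rfl
      rw [h2, Finset.sum_eq_single x]
      · rw [hP, if_pos rfl, mul_one]
      · intro x' _ hne
        rw [hP, if_neg (Ne.symm hne), mul_zero]
      · intro h3; exact absurd hx h3
    rw [Derivation.sub_apply, sub_eq_zero] at h1
    rw [h1, sum_der_apply]
    rfl
  intro n x c u h0
  -- one set for the form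
  obtain ⟨S, hST, hS⟩ : ∃ S : Finset B, (∀ F : Derivation QB ℂ ℂ, ∀ T : Finset B, S ⊆ T →
      form x c u F = ∑ y ∈ T, F (y : ℂ) * form x c u (P y)) ∧ ∀ F : Derivation QB ℂ ℂ,
      form x c u F = ∑ y ∈ S, F (y : ℂ) * form x c u (P y) := by
    choose S hS using hcomb
    have key : ∀ F : Derivation QB ℂ ℂ, ∀ T : Finset B,
        S x ∪ Finset.univ.biUnion (fun j => S (u j)) ⊆ T →
        form x c u F = ∑ y ∈ T, F (y : ℂ) * form x c u (P y) := by
      intro F T hT
      have h1 := hS x F T (Finset.subset_union_left.trans hT)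
      have h2 : ∀ j, F (u j) = ∑ y ∈ T, F (y : ℂ) * P y (u j) := fun j =>
        hS (u j) F T (((Finset.subset_biUnion_of_mem (fun j => S (u j)) (Finset.mem_univ j)).trans
          Finset.subset_union_right).trans hT)
      unfold form
      simp only [mul_add, Finset.sum_add_distrib]
      rw [h1]
      congr 1
      simp only [Finset.mul_sum]
      rw [Finset.sum_comm]
      refine Finset.sum_congr rfl fun j _ => ?_
      rw [h2 j, Finset.sum_div, Finset.mul_sum]
      refine Finset.sum_congr rfl fun y _ => ?_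
      ring
    exact ⟨_, key, fun F => key F _ (Finset.Subset.refl _)⟩
  have hvan : ∀ y ∉ S, form x c u (P y) = 0 := by
    intro y hy
    rw [hS]
    apply Finset.sum_eq_zero
    intro y' hy'
    rw [hP, if_neg (by rintro rfl; exact hy hy'), zero_mul]
  -- the part of `B'`
  have hall : ∀ y : B', form x c u (P y) = 0 := by
    by_contra hcon
    push Not at hcon
    obtain ⟨b₀, hb₀⟩ := hcon
    have hfin : {y : B' | form x c u (P y) ≠ 0}.Finite := by
      have h1 : Set.InjOn (fun y : B' => (y : B)) ((fun y : B' => (y : B)) ⁻¹' (S : Set B)) :=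
        fun _ _ _ _ h => Subtype.ext h
      refine Set.Finite.subset (Set.Finite.preimage h1 S.finite_toSet) ?_
      intro y hy
      by_contra h
      exact hy (hvan y h)
    obtain ⟨y₀, hy₀, hmax⟩ := Set.exists_max_image _ (fun y : B' => (φ y).2) hfin ⟨b₀, hb₀⟩
    have hσ0 : form x c u (P (sh y₀)) = 0 := by
      by_contra h0
      have := hmax (sh y₀) h0
      rw [hsh] at this
      simp at this
    have h1 : P (sh y₀) (form x c u D) = form x c u (P y₀) := by
      have hterm : ∀ y ∈ S, P (sh y₀) (D (y : ℂ) * form x c u (P y)) =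
          (if y = (y₀ : B) then 1 else 0) * form x c u (P y) := by
        intro y _
        rw [Derivation.leibniz, form_symm x c u _ _ (hcomm _ _), hσ0, map_zero, smul_zero,
          zero_add, hPf, smul_eq_mul, mul_comm]
      rw [hS D, map_sum, Finset.sum_congr rfl hterm]
      rw [Finset.sum_eq_single (y₀ : B)]
      · rw [if_pos rfl, one_mul]
      · intro y _ hne
        rw [if_neg hne, zero_mul]
      · intro h
        rw [hvan _ h, mul_zero]
    rw [h0, map_zero] at h1
    exact hy₀ h1.symm
  -- the coefficients of the logarithmic differentials of the exponentials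
  let bb : B → QB := fun t => if h : (t : ℂ) ∈ Set.range e then b h.choose else 0
  have hbb : ∀ t : B, (t : ℂ) ∈ Set.range e → D (t : ℂ) = (bb t : ℂ) * (t : ℂ) := by
    intro t ht
    have h1 : bb t = b ht.choose := dif_pos ht
    have h2 : D (t : ℂ) = f t := hD t
    have h3 : f t = ((b ht.choose : QB) : ℂ) * (t : ℂ) := dif_pos ht
    rw [h2, h3, h1]
  have hbb0 : ∀ t : B, (t : ℂ) ∉ Set.range e → bb t = 0 := fun t ht => dif_neg ht
  let w : B → ℂ := fun y => (y : ℂ) * form x c u (P y)
  have hw : ∀ t : B, D (t : ℂ) * form x c u (P t) = (bb t : ℂ) * w t := by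
    intro t
    by_cases ht : (t : ℂ) ∈ Set.range e
    · rw [hbb t ht, mul_assoc]
    · rw [show form x c u (P t) = 0 from hall ⟨t, ht⟩, hbb0 t ht, mul_zero]
      simp
  have hDw : ∀ y : B, (y : ℂ) ∈ Set.range e → D (w y) = 0 := by
    intro y hy
    obtain ⟨S₁, hS₁⟩ := hcomb (w y)
    rw [hS₁ D (S₁ ∪ S) Finset.subset_union_left]
    have hterm : ∀ t ∈ S₁ ∪ S, D (t : ℂ) * P t (w y) = (y : ℂ) * P y ((bb t : ℂ) * w t) := by
      intro t _
      have hc0 : P y (bb t : ℂ) = 0 := (P y).map_algebraMap (bb t)
      have e1 : P t (w y) = (if y = t then 1 else 0) * form x c u (P y) +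
          (y : ℂ) * P y (form x c u (P t)) := by
        show P t ((y : ℂ) * form x c u (P y)) = _
        rw [Derivation.leibniz, hP, form_symm x c u _ _ (hcomm _ _), smul_eq_mul, smul_eq_mul]
        ring
      have e2 : P y ((bb t : ℂ) * w t) = (bb t : ℂ) * ((if t = y then 1 else 0) *
          form x c u (P t) + (t : ℂ) * P y (form x c u (P t))) := by
        rw [Derivation.leibniz, hc0, smul_zero, add_zero, smul_eq_mul]
        show (bb t : ℂ) * P y ((t : ℂ) * form x c u (P t)) = _
        rw [Derivation.leibniz, hP, smul_eq_mul, smul_eq_mul]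
        ring
      rw [e1, e2]
      by_cases ht : (t : ℂ) ∈ Set.range e
      · rw [hbb t ht]
        by_cases hty : y = t
        · subst hty
          simp only [if_true]
          ring
        · rw [if_neg hty, if_neg (Ne.symm hty)]
          ring
      · have hty : y ≠ t := by
          rintro rfl
          exact ht hy
        rw [show form x c u (P t) = 0 from hall ⟨t, ht⟩, hbb0 t ht, if_neg hty, map_zero]
        simp
    rw [Finset.sum_congr rfl hterm, ← Finset.mul_sum, ← map_sum]
    have h1 : ∑ t ∈ S₁ ∪ S, (bb t : ℂ) * w t = 0 := by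
      rw [← h0, hST D (S₁ ∪ S) Finset.subset_union_right]
      exact Finset.sum_congr rfl fun t _ => (hw t).symm
    rw [h1, map_zero, mul_zero]
  let g : B → QB := fun y => if h : (y : ℂ) ∈ Set.range e then (hconst _ (hDw y h)).choose else 0
  have hg : ∀ y : B, (y : ℂ) ∈ Set.range e → (g y : ℂ) = w y := by
    intro y hy
    have h1 : g y = (hconst _ (hDw y hy)).choose := dif_pos hy
    rw [h1]
    exact (hconst _ (hDw y hy)).choose_spec
  refine ⟨B, S.filter (fun y => (y : ℂ) ∈ Set.range e), g, fun y => (y : ℂ), ?_, ?_⟩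
  · intro y hy
    obtain ⟨i, hi⟩ := (Finset.mem_filter.1 hy).2
    show (y : ℂ) ≠ 0
    rw [← hi]
    exact Complex.exp_ne_zero _
  · intro F
    rw [hS F, Finset.sum_filter]
    refine Finset.sum_congr rfl fun y _ => ?_
    by_cases hy : (y : ℂ) ∈ Set.range e
    · have hy0 : (y : ℂ) ≠ 0 := by
        obtain ⟨i, hi⟩ := hy
        rw [← hi]
        exact Complex.exp_ne_zero _
      rw [if_pos hy, hg y hy]
      show F (y : ℂ) * form x c u (P y) = (y : ℂ) * form x c u (P y) * (F (y : ℂ) / (y : ℂ))
      field_simp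
    · rw [if_neg hy, show form x c u (P y) = 0 from hall ⟨y, hy⟩, mul_zero]

/-- Derivations of `ℂ` vanish on the algebraic numbers. -/
theorem exists_lift' (D : Derivation ℚ ℂ ℂ) (hD : ∀ w ∈ QB, D w = 0) :
    ∃ F : Derivation QB ℂ ℂ, ∀ z, F z = D z := by
  refine ⟨Derivation.mk' (R := QB) (A := ℂ) (M := ℂ)
    { toFun := D
      map_add' := D.map_add
      map_smul' := fun c z => by
        have h0 : D (algebraMap QB ℂ c) = 0 := hD _ c.2
        rw [Algebra.smul_def c z, D.leibniz, h0, smul_zero, add_zero, RingHom.id_apply,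
          Algebra.smul_def c (D z), smul_eq_mul] } (fun a b => D.leibniz a b), fun z => rfl⟩

/-- **The derivation.** -/
theorem exists_der_expP : ∃ Δ : Derivation QB ℂ ℂ,
    (∀ γ : QB, Δ (Complex.exp γ) = (γ : ℂ) * Complex.exp γ) ∧
    (∀ z, Δ z = 0 → ∃ a : QB, algebraMap QB ℂ a = z) ∧
    ∀ (n : ℕ) (c y : Fin n → ℂ) (r : ℂ), (∀ j, Δ (c j) = 0) →
      Δ r = ∑ j, c j * (Δ (y j) / y j) → Δ r = 0 := by
  classical
  obtain ⟨Δ, h1, h2, h3⟩ := exists_der_form
  refine ⟨Δ, h1, h2, fun n c y r hc hr => ?_⟩
  choose c' hc' using fun j => h2 (c j) (hc j)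
  have hc'' : ∀ j, (c' j : ℂ) = c j := hc'
  let u : Fin n → ℂ := fun j => if y j = 0 then 1 else y j
  have hu : ∀ j, u j ≠ 0 := by
    intro j
    show (if y j = 0 then (1 : ℂ) else y j) ≠ 0
    split_ifs with h
    · exact one_ne_zero
    · exact h
  have hud : ∀ j, Δ (u j) / u j = Δ (y j) / y j := by
    intro j
    show Δ (if y j = 0 then (1 : ℂ) else y j) / (if y j = 0 then (1 : ℂ) else y j) = _
    split_ifs with h
    · rw [Derivation.map_one_eq_zero, h]
      simp
    · rfl
  obtain ⟨κ, s, g, v, hv, hF⟩ := h3 n r (fun j => -c' j) u (by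
    unfold form
    rw [hr, ← Finset.sum_add_distrib]
    apply Finset.sum_eq_zero
    intro j _
    have : ((-c' j : QB) : ℂ) = -(c j) := by
      rw [← hc'' j]; rfl
    rw [this, hud]
    ring)
  let J := Fin n ⊕ s
  let ε := Fintype.equivFin J
  have h4 := Pool.Agent.TH813.Ros.exact QB (n := Fintype.card J)
    (fun k => Sum.elim (fun j => (c' j : ℂ)) (fun t : s => (g t : ℂ)) (ε.symm k))
    (fun k => Sum.elim u (fun t : s => v t) (ε.symm k))
    (by
      intro k
      rcases ε.symm k with j | t
      · exact (c' j).2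
      · exact (g t).2)
    (by
      intro k
      rcases ε.symm k with j | t
      · exact hu j
      · exact hv t t.2)
    r
    (by
      intro D hD
      obtain ⟨F, hFD⟩ := exists_lift' D hD
      have h5 := hF F
      unfold form at h5
      let G : J → ℂ := fun o => Sum.elim (fun j => (c' j : ℂ)) (fun t : s => (g t : ℂ)) o *
          (D (Sum.elim u (fun t : s => v t) o) / Sum.elim u (fun t : s => v t) o)
      have h6 : ∑ k, G (ε.symm k) = ∑ o : J, G o := Equiv.sum_comp ε.symm G
      refine Eq.trans ?_ h6.symm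
      rw [Fintype.sum_sum_type]
      simp only [G, Sum.elim_inl, Sum.elim_inr]
      rw [Finset.sum_coe_sort s (fun t => (g t : ℂ) * (D (v t) / v t))]
      have h7 : ∑ k ∈ s, (g k : ℂ) * (F (v k) / v k) = ∑ k ∈ s, (g k : ℂ) * (D (v k) / v k) :=
        Finset.sum_congr rfl fun k _ => by rw [hFD]
      rw [← h7, ← h5, hFD]
      have h8 : ∑ j, ((-c' j : QB) : ℂ) * (F (u j) / u j) = -∑ j, (c' j : ℂ) * (D (u j) / u j) := by
        rw [← Finset.sum_neg_distrib]
        refine Finset.sum_congr rfl fun j _ => ?_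
        rw [hFD]
        have : ((-c' j : QB) : ℂ) = -(c' j : ℂ) := rfl
        rw [this]
        ring
      rw [h8]
      ring)
    (Δ.restrictScalars ℚ) (fun w hw => Δ.map_algebraMap (⟨w, hw⟩ : QB))
  exact h4

end Pool.Agent.Zk44.UP
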